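import Mathlib

set_option autoImplicit false
set_option linter.all false

open scoped commutatorElement

namespace Pool.Agent.Results.MP_b9ac25_al.P1ImpliesP2

universe u v

/-- Terms of the lower central series, `γ G j = C^{j+1} G`. -/
abbrev γ (G : Type u) [Group G] (j : ℕ) : Subgroup G := (⊤ : Subgroup G).lowerCentralSeries j

section
variable {G : Type u} [Group G]

theorem three (N H1 H2 H3 : Subgroup G) [N.Normal] (h1 : ⁅⁅H2, H3⁆, H1⁆ ≤ N)
    (h2 : ⁅⁅H3, H1⁆, H2⁆ ≤ N) : ⁅⁅H1, H2⁆, H3⁆ ≤ N := by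
  have key : ∀ X : Subgroup G, X ≤ N ↔ X.map (QuotientGroup.mk' N) = ⊥ := by
    intro X
    rw [Subgroup.map_eq_bot_iff, QuotientGroup.ker_mk']
  rw [key, Subgroup.map_commutator, Subgroup.map_commutator] at h1 h2 ⊢
  exact Subgroup.commutator_commutator_eq_bot_of_rotate h1 h2

theorem lcs_comm (j : ℕ) : ∀ i, ⁅γ G i, γ G j⁆ ≤ γ G (i + j + 1) := by
  induction j with
  | zero =>
    intro i
    rfl
  | succ j ih =>
    intro i
    show ⁅γ G i, (⊤ : Subgroup G).lowerCentralSeries (j + 1)⁆ ≤ _
    rw [Subgroup.commutator_comm, Subgroup.lowerCentralSeries_succ]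
    apply three
    · rw [Subgroup.commutator_comm ⊤, ← Subgroup.lowerCentralSeries_succ]
      refine (ih (i + 1)).trans (le_of_eq ?_)
      congr 1
      omega
    · have h1 := Subgroup.commutator_mono (ih i) (le_refl (⊤ : Subgroup G))
      rw [← Subgroup.lowerCentralSeries_succ] at h1
      refine h1.trans (le_of_eq ?_)
      congr 1

theorem γ_succ (i : ℕ) : γ G (i + 1) = ⁅γ G i, (⊤ : Subgroup G)⁆ := rfl

theorem γ_anti {i j : ℕ} (h : i ≤ j) : γ G j ≤ γ G i := Subgroup.lowerCentralSeries_antitone _ h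

/-- Elements commuting modulo a normal subgroup. -/
theorem mk_comm {N : Subgroup G} [N.Normal] {x y : G} (h : ⁅x, y⁆ ∈ N) :
    (x : G ⧸ N) * (y : G ⧸ N) = (y : G ⧸ N) * (x : G ⧸ N) := by
  have h1 : ((⁅x, y⁆ : G) : G ⧸ N) = 1 := (QuotientGroup.eq_one_iff _).2 h
  rw [commutatorElement_def] at h1
  have h2 : (x : G ⧸ N) * y * (x : G ⧸ N)⁻¹ * (y : G ⧸ N)⁻¹ = 1 := h1
  rw [mul_inv_eq_one, mul_inv_eq_iff_eq_mul] at h2
  exact h2

/-- An endomorphism that is trivial on the abelianization is trivial on all lower central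
factors. -/
theorem unip (θ : G →* G) (h : ∀ x, θ x * x⁻¹ ∈ γ G 1) :
    ∀ i, ∀ x ∈ γ G i, θ x * x⁻¹ ∈ γ G (i + 1) := by
  intro i
  induction i with
  | zero => intro x _; exact h x
  | succ i ih =>
    intro x hx
    have hx' : x ∈ Subgroup.closure {x | ∃ p ∈ γ G i, ∃ q ∈ (⊤ : Subgroup G), ⁅p, q⁆ = x} := hx
    clear hx
    suffices h3 : x ∈ γ G (i + 1) ∧ θ x * x⁻¹ ∈ γ G (i + 1 + 1) from h3.2
    induction hx' using Subgroup.closure_induction with
    | mem x hx =>
      obtain ⟨p, hp, q, -, rfl⟩ := hx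
      have hpq : ⁅p, q⁆ ∈ γ G (i + 1) := Subgroup.commutator_mem_commutator hp (Subgroup.mem_top _)
      refine ⟨hpq, ?_⟩
      set d := θ p * p⁻¹ with hd
      set c := θ q * q⁻¹ with hc
      have hd1 : d ∈ γ G (i + 1) := ih p hp
      have hc1 : c ∈ γ G 1 := h q
      have e1 : θ p = d * p := by rw [hd]; group
      have e2 : θ q = c * q := by rw [hc]; group
      rw [map_commutatorElement, e1, e2]
      rw [← QuotientGroup.eq_one_iff]
      have cen : ∀ z ∈ γ G (i + 1), ∀ y : G, (z : G ⧸ γ G (i + 1 + 1)) * y = y * z := by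
        intro z hz y
        exact mk_comm (Subgroup.commutator_mem_commutator hz (Subgroup.mem_top _))
      have pc : (p : G ⧸ γ G (i + 1 + 1)) * c = c * p :=
        mk_comm (lcs_comm 1 i (Subgroup.commutator_mem_commutator hp hc1))
      have D := cen d hd1
      have C := cen _ hpq
      rw [commutatorElement_def, commutatorElement_def]
      rw [commutatorElement_def] at C
      simp only [QuotientGroup.mk_mul, QuotientGroup.mk_inv] at C ⊢
      generalize (p : G ⧸ γ G (i + 1 + 1)) = P at *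
      have Dq : ∀ y : G ⧸ γ G (i + 1 + 1), (d : G ⧸ γ G (i + 1 + 1)) * y = y * d := by
        intro y
        obtain ⟨y, rfl⟩ := QuotientGroup.mk_surjective y
        exact D y
      have Cq := C c
      generalize (q : G ⧸ γ G (i + 1 + 1)) = Q at *
      generalize (c : G ⧸ γ G (i + 1 + 1)) = C' at *
      generalize (d : G ⧸ γ G (i + 1 + 1)) = D' at *
      calc D' * P * (C' * Q) * (D' * P)⁻¹ * (C' * Q)⁻¹ * (P * Q * P⁻¹ * Q⁻¹)⁻¹
          = D' * (P * (C' * Q) * P⁻¹) * D'⁻¹ * (C' * Q)⁻¹ * (P * Q * P⁻¹ * Q⁻¹)⁻¹ := by group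
        _ = (P * (C' * Q) * P⁻¹) * D' * D'⁻¹ * (C' * Q)⁻¹ * (P * Q * P⁻¹ * Q⁻¹)⁻¹ := by rw [Dq]
        _ = (P * C') * (Q * P⁻¹ * Q⁻¹) * C'⁻¹ * (P * Q * P⁻¹ * Q⁻¹)⁻¹ := by group
        _ = (C' * P) * (Q * P⁻¹ * Q⁻¹) * C'⁻¹ * (P * Q * P⁻¹ * Q⁻¹)⁻¹ := by rw [pc]
        _ = C' * (P * Q * P⁻¹ * Q⁻¹) * C'⁻¹ * (P * Q * P⁻¹ * Q⁻¹)⁻¹ := by group
        _ = (P * Q * P⁻¹ * Q⁻¹) * C' * C'⁻¹ * (P * Q * P⁻¹ * Q⁻¹)⁻¹ := by rw [← Cq]
        _ = 1 := by group
    | one =>
      refine ⟨Subgroup.one_mem _, ?_⟩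
      rw [map_one, inv_one, mul_one]; exact Subgroup.one_mem _
    | mul x y _ _ hx hy =>
      refine ⟨Subgroup.mul_mem _ hx.1 hy.1, ?_⟩
      have : θ (x * y) * (x * y)⁻¹ = θ x * (θ y * y⁻¹) * (θ x)⁻¹ * (θ x * x⁻¹) := by
        rw [map_mul]; group
      rw [this]
      exact Subgroup.mul_mem _ (Subgroup.Normal.conj_mem inferInstance _ hy.2 _) hx.2
    | inv x _ hx =>
      refine ⟨Subgroup.inv_mem _ hx.1, ?_⟩
      have : θ x⁻¹ * (x⁻¹)⁻¹ = x⁻¹ * (x * (θ x)⁻¹) * (x⁻¹)⁻¹ := by
        rw [map_inv]; group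
      rw [this]
      refine Subgroup.Normal.conj_mem inferInstance _ ?_ _
      have h2 := Subgroup.inv_mem _ hx.2
      rwa [mul_inv_rev, inv_inv] at h2

theorem unip_bij {c : ℕ} (hc : γ G c = ⊥) (θ : G →* G) (h : ∀ x, θ x * x⁻¹ ∈ γ G 1) :
    Function.Bijective θ := by
  have hu := unip θ h
  constructor
  · rw [injective_iff_map_eq_one]
    intro x hx
    have h1 : ∀ i, x ∈ γ G i := by
      intro i
      induction i with
      | zero => exact Subgroup.mem_top _
      | succ i ih =>
        have h2 := hu i x ih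
        rw [hx, one_mul] at h2
        exact (Subgroup.inv_mem_iff _).1 h2
    have h2 := h1 c
    rw [hc] at h2
    exact h2
  · have h1 : ∀ k, ∀ x ∈ γ G (c - k), x ∈ θ.range := by
      intro k
      induction k with
      | zero =>
        intro x hx
        rw [Nat.sub_zero, hc] at hx
        rw [Subgroup.mem_bot.1 hx]; exact Subgroup.one_mem _
      | succ k ih =>
        intro x hx
        have h3 : θ x * x⁻¹ ∈ θ.range := by
          apply ih
          exact γ_anti (by omega) (hu _ x hx)
        have h4 : x = (θ x * x⁻¹)⁻¹ * θ x := by group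
        rw [h4]
        exact Subgroup.mul_mem _ (Subgroup.inv_mem _ h3) ⟨x, rfl⟩
    intro x
    have h2 := h1 c x
    rw [Nat.sub_self] at h2
    exact h2 (Subgroup.mem_top _)

theorem ab_unip (θ : G →* G) (h : Abelianization.map θ = MonoidHom.id _) :
    ∀ x, θ x * x⁻¹ ∈ γ G 1 := by
  intro x
  have h1 : Abelianization.of (θ x) = Abelianization.of x := by
    rw [← Abelianization.map_of, h]; rfl
  show θ x * x⁻¹ ∈ commutator G
  rw [← Abelianization.ker_of (G := G)]
  rw [MonoidHom.mem_ker, map_mul, map_inv, h1, mul_inv_cancel]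

theorem γ_map {H : Type v} [Group H] (f : G →* H) (j : ℕ) : γ G j ≤ (γ H j).comap f := by
  rw [← Subgroup.map_le_iff_le_comap]
  show ((⊤ : Subgroup G).lowerCentralSeries j).map f ≤ _
  rw [Subgroup.map_lowerCentralSeries]
  exact Subgroup.lowerCentralSeries_mono j le_top

theorem γ_quot (j : ℕ) : γ (G ⧸ γ G j) j = ⊥ := by
  rw [eq_bot_iff]
  intro x hx
  have h1 : γ (G ⧸ γ G j) j = (γ G j).map (QuotientGroup.mk' (γ G j)) := by
    show _ = ((⊤ : Subgroup G).lowerCentralSeries j).map _
    rw [Subgroup.map_lowerCentralSeries, Subgroup.map_top_of_surjective _ (QuotientGroup.mk'_surjective _)]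
  rw [h1] at hx
  obtain ⟨y, hy, rfl⟩ := hx
  rw [Subgroup.mem_bot]
  exact (QuotientGroup.eq_one_iff y).2 hy

theorem ab_quot {j : ℕ} (hj : 1 ≤ j) :
    Function.Bijective (Abelianization.map (QuotientGroup.mk' (γ G j))) := by
  constructor
  · rw [injective_iff_map_eq_one]
    intro x hx
    obtain ⟨x, rfl⟩ := QuotientGroup.mk_surjective x
    have h1 : Abelianization.map (QuotientGroup.mk' (γ G j)) (Abelianization.of x) = 1 := hx
    rw [Abelianization.map_of, ← MonoidHom.mem_ker, Abelianization.ker_of] at h1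
    have h2 : commutator (G ⧸ γ G j) = (commutator G).map (QuotientGroup.mk' (γ G j)) := by
      rw [commutator_def, commutator_def, Subgroup.map_commutator,
        Subgroup.map_top_of_surjective _ (QuotientGroup.mk'_surjective _)]
    rw [h2] at h1
    obtain ⟨y, hy, hyx⟩ := h1
    have h3 : y⁻¹ * x ∈ γ G j := QuotientGroup.eq.1 hyx
    have h4 : y⁻¹ * x ∈ commutator G := γ_anti hj h3
    have h5 : x ∈ commutator G := by
      have := Subgroup.mul_mem _ hy h4
      rwa [mul_inv_cancel_left] at this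
    exact (QuotientGroup.eq_one_iff x).2 h5
  · intro x
    obtain ⟨x, rfl⟩ := QuotientGroup.mk_surjective x
    obtain ⟨x, rfl⟩ := QuotientGroup.mk_surjective x
    exact ⟨Abelianization.of x, Abelianization.map_of _ _⟩

end

section
variable {α : Type v}

/-- A homomorphism from a free nilpotent group to an isomorphic group is bijective if it is
bijective on abelianizations. -/
theorem freeNil_bij (j : ℕ) {M : Type u} [Group M] (e : (FreeGroup α ⧸ γ (FreeGroup α) j) ≃* M)
    (f : (FreeGroup α ⧸ γ (FreeGroup α) j) →* M)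
    (hf : Function.Bijective (Abelianization.map f)) : Function.Bijective f := by
  set N := FreeGroup α ⧸ γ (FreeGroup α) j with hN
  let ψ : N →* N := (e.symm : M →* N).comp f
  have hψ : Function.Bijective (Abelianization.map ψ) := by
    have h1 : Abelianization.map ψ =
        (Abelianization.map (e.symm : M →* N)).comp (Abelianization.map f) := by
      rw [Abelianization.map_comp]
    rw [h1, MonoidHom.coe_comp]
    refine Function.Bijective.comp ?_ hf
    exact (MulEquiv.abelianizationCongr e.symm).bijective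
  let E : Abelianization N ≃* Abelianization N := MulEquiv.ofBijective _ hψ
  have hb : ∀ a : α, ∃ b : N, Abelianization.of b =
      E.symm (Abelianization.of (QuotientGroup.mk (FreeGroup.of a) : N)) := by
    intro a
    obtain ⟨b, hb⟩ := QuotientGroup.mk_surjective
      (E.symm (Abelianization.of (QuotientGroup.mk (FreeGroup.of a) : N)))
    exact ⟨b, hb⟩
  choose b hb using hb
  let β : N →* N := QuotientGroup.lift (γ (FreeGroup α) j) (FreeGroup.lift b) (by
    intro x hx
    have h1 := γ_map (FreeGroup.lift b) j hx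
    rw [Subgroup.mem_comap] at h1
    have h2 : γ N j = ⊥ := γ_quot j
    rw [h2] at h1
    exact h1)
  have hβ : ∀ a : α, β (QuotientGroup.mk (FreeGroup.of a)) = b a := by
    intro a
    show FreeGroup.lift b (FreeGroup.of a) = b a
    exact FreeGroup.lift_apply_of
  have hEβ : Abelianization.map β = (E.symm : Abelianization N →* Abelianization N) := by
    apply Abelianization.hom_ext
    apply QuotientGroup.monoidHom_ext
    apply FreeGroup.ext_hom
    intro a
    show Abelianization.map β (Abelianization.of (QuotientGroup.mk (FreeGroup.of a))) = _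
    rw [Abelianization.map_of, hβ, hb]
    rfl
  have h1 : Abelianization.map (ψ.comp β) = MonoidHom.id _ := by
    rw [← Abelianization.map_comp, hEβ]
    exact MonoidHom.ext (fun x => E.apply_symm_apply x)
  have h2 : Abelianization.map (β.comp ψ) = MonoidHom.id _ := by
    rw [← Abelianization.map_comp, hEβ]
    exact MonoidHom.ext (fun x => E.symm_apply_apply x)
  have h3 := unip_bij (γ_quot j) _ (ab_unip _ h1)
  have h4 := unip_bij (γ_quot j) _ (ab_unip _ h2)
  have h5 : Function.Bijective ψ := by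
    constructor
    · intro x y hxy
      apply h4.1
      show β (ψ x) = β (ψ y)
      rw [hxy]
    · intro y
      obtain ⟨x, hx⟩ := h3.2 y
      exact ⟨β x, hx⟩
  have h6 : (f : N → M) = e ∘ ψ := by
    funext x
    exact (e.apply_symm_apply _).symm
  rw [h6]
  exact e.bijective.comp h5

/-- (P1) implies (P2), with the same free group. -/
theorem result (Γ : Type u) [Group Γ] (α : Type v)
    (h : ∀ j : ℕ, Nonempty ((Γ ⧸ (⊤ : Subgroup Γ).lowerCentralSeries j) ≃*
      (FreeGroup α ⧸ (⊤ : Subgroup (FreeGroup α)).lowerCentralSeries j))) :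
    ∃ φ : FreeGroup α →* Γ, ∀ j : ℕ,
      ∃ hφ : (⊤ : Subgroup (FreeGroup α)).lowerCentralSeries j ≤
        ((⊤ : Subgroup Γ).lowerCentralSeries j).comap φ,
      Function.Bijective (QuotientGroup.map ((⊤ : Subgroup (FreeGroup α)).lowerCentralSeries j)
        ((⊤ : Subgroup Γ).lowerCentralSeries j) φ hφ) := by
  obtain ⟨e1⟩ := h 1
  let e : Abelianization Γ ≃* Abelianization (FreeGroup α) := e1
  have hg : ∀ a : α, ∃ g : Γ, Abelianization.of g = e.symm (Abelianization.of (FreeGroup.of a)) := by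
    intro a
    obtain ⟨g, hg⟩ := QuotientGroup.mk_surjective (e.symm (Abelianization.of (FreeGroup.of a)))
    exact ⟨g, hg⟩
  choose g hg using hg
  have hab : Abelianization.map (FreeGroup.lift g) =
      (e.symm : Abelianization (FreeGroup α) →* Abelianization Γ) := by
    apply Abelianization.hom_ext
    apply FreeGroup.ext_hom
    intro a
    show Abelianization.map (FreeGroup.lift g) (Abelianization.of (FreeGroup.of a)) = _
    rw [Abelianization.map_of, FreeGroup.lift_apply_of, hg]
    rfl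
  have hbij : Function.Bijective (Abelianization.map (FreeGroup.lift g)) := by
    rw [hab]; exact e.symm.bijective
  refine ⟨FreeGroup.lift g, fun j => ⟨γ_map _ j, ?_⟩⟩
  rcases Nat.eq_zero_or_pos j with rfl | hj
  · constructor
    · intro x y _
      obtain ⟨x, rfl⟩ := QuotientGroup.mk_surjective x
      obtain ⟨y, rfl⟩ := QuotientGroup.mk_surjective y
      exact QuotientGroup.eq.2 (Subgroup.mem_top _)
    · intro y
      refine ⟨1, ?_⟩
      obtain ⟨y, rfl⟩ := QuotientGroup.mk_surjective y
      rw [map_one]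
      exact QuotientGroup.eq.2 (Subgroup.mem_top _)
  · obtain ⟨ej⟩ := h j
    refine freeNil_bij j ej.symm _ ?_
    have h1 : (Abelianization.map (QuotientGroup.map (γ (FreeGroup α) j) (γ Γ j)
        (FreeGroup.lift g) (γ_map _ j))).comp (Abelianization.map (QuotientGroup.mk' _)) =
        (Abelianization.map (QuotientGroup.mk' (γ Γ j))).comp
          (Abelianization.map (FreeGroup.lift g)) := by
      rw [Abelianization.map_comp, Abelianization.map_comp]
      rfl
    have h2 : Function.Bijective ((Abelianization.map (QuotientGroup.map (γ (FreeGroup α) j) (γ Γ j)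
        (FreeGroup.lift g) (γ_map _ j))) ∘ (Abelianization.map (QuotientGroup.mk' (γ (FreeGroup α) j)))) := by
      rw [← MonoidHom.coe_comp, h1, MonoidHom.coe_comp]
      exact (ab_quot hj).comp hbij
    exact (Function.Bijective.of_comp_iff _ (ab_quot hj)).1 h2

end

end Pool.Agent.Results.MP_b9ac25_al.P1ImpliesP2
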